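import Pool.Agent.Y541.PCG.Complete

/-!
# Generalized PCG recognition is `NP`-hard
-/

set_option autoImplicit false

namespace Pool.Agent.Results.MP_9390ab_lc.GenPCGNPHard

open Pool.Agent.NPC Pool.Agent.Y541.PCG

/-- Generalized PCG recognition (given a graph `G` and a set `S` of pairs of its vertices, decide
whether some graph `PCG(T, dmin, dmax)` on the vertices of `G` contains all edges of `G` and no
pair of `S`) is `NP`-hard under polynomial-time many-one reductions. -/
theorem result : NPHardP GenPCGRecognition := hardI_GenPCG.toNPHardP

end Pool.Agent.Results.MP_9390ab_lc.GenPCGNPHard
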